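import Pool.Agent.Y166.LT.Stm

/-!
# Project LT: all divisors of the chart other than the ramification divisor are unramified
-/

set_option autoImplicit false
set_option linter.unusedSectionVars false

namespace Pool.Agent.Y776.LT.UNR

open MvPolynomial Pool.Agent.Y166.GM Pool.Agent.Y198.MC Pool.Agent.Y166.LT
open FF (Place)

section gen
variable {k σ : Type} [Field k]

theorem pd_aeval {τ : Type} [Fintype σ] (G : σ → MvPolynomial τ k) (P : MvPolynomial σ k) (j : τ) :
    pderiv j (aeval G P) = ∑ i, aeval G (pderiv i P) * pderiv j (G i) := by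
  classical
  induction P using MvPolynomial.induction_on with
  | C a =>
    simp only [pderiv_C, map_zero, zero_mul, Finset.sum_const_zero]
    have : aeval G (C a : MvPolynomial σ k) = C a := by
      rw [aeval_C]; rfl
    rw [this, pderiv_C]
  | add p q hp hq =>
    simp only [map_add, hp, hq, add_mul, Finset.sum_add_distrib]
  | mul_X p n hp =>
    rw [map_mul, pderiv_mul, hp, aeval_X]
    simp only [pderiv_mul, map_add, map_mul, aeval_X, pderiv_X, add_mul, Finset.sum_add_distrib]
    congr 1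
    · rw [Finset.sum_mul]
      refine Finset.sum_congr rfl fun i _ => ?_
      ring
    · rw [Finset.sum_eq_single n]
      · rw [Pi.single_eq_same, map_one, mul_one]
      · intro b _ hb
        rw [Pi.single_eq_of_ne (Ne.symm hb), map_zero, mul_zero, zero_mul]
      · intro h
        exact absurd (Finset.mem_univ _) h

theorem td_lt (p : MvPolynomial σ k) (i : σ) (h : pderiv i p ≠ 0) :
    (pderiv i p).totalDegree < p.totalDegree := by
  classical
  have key : ∀ m ∈ (pderiv i p).support, m.degree + 1 ≤ p.totalDegree := by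
    intro m hm
    rw [mem_support_iff, coeff_pderiv] at hm
    have h1 : m + Finsupp.single i 1 ∈ p.support := by
      rw [mem_support_iff]
      exact fun h0 => hm (by rw [h0, zero_mul])
    have h2 := le_totalDegree h1
    have h3 : (m + Finsupp.single i 1).degree = m.degree + 1 := by
      rw [map_add]; simp
    rw [← h3]
    exact h2
  obtain ⟨m, hm⟩ := ne_zero_iff.1 h
  have h1 := key m (mem_support_iff.2 hm)
  have h2 : (pderiv i p).totalDegree ≤ p.totalDegree - 1 := by
    unfold totalDegree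
    refine Finset.sup_le fun m hm => ?_
    have := key m hm
    have h3 : (m.sum fun _ e => e) = m.degree := rfl
    rw [h3]
    unfold totalDegree at this
    omega
  omega

theorem eq_C [CharZero k] (p : MvPolynomial σ k) (h : ∀ i, pderiv i p = 0) : p = C (coeff 0 p) := by
  classical
  ext m
  rw [coeff_C]
  split_ifs with hm
  · rw [← hm]
  · obtain ⟨i, hi⟩ : ∃ i, m i ≠ 0 := by
      by_contra hc
      push Not at hc
      exact hm (Finsupp.ext fun i => (hc i).symm)
    have h1 := coeff_pderiv (i := i) p (m - Finsupp.single i 1)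
    rw [h i, coeff_zero] at h1
    have h2 : m - Finsupp.single i 1 + Finsupp.single i 1 = m := by
      refine tsub_add_cancel_of_le ?_
      rw [Finsupp.single_le_iff]
      omega
    rw [h2] at h1
    rcases mul_eq_zero.1 h1.symm with h3 | h3
    · exact h3
    · exfalso
      have h4 : (((m - Finsupp.single i 1 : σ →₀ ℕ) i + 1 : ℕ) : k) = 0 := by
        push_cast; exact h3
      exact absurd (Nat.cast_eq_zero.1 h4) (by omega)

end gen

section poly
variable {k : Type} [Field k] {r : ℕ}

/-- the coordinates of the chart of `X` as polynomials in those of the covering -/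
noncomputable def Fp (k : Type) [Field k] (r : ℕ) : Ch r → MvPolynomial (Ch r) k
  | .inl p => X (.inl p)
  | .inr j => ![C (1 / 3) * (X (.inr 0) + 2 * X (.inr 1)),
      C (1 / 3) * (2 * X (.inr 1) * X (.inr 0) + X (.inr 2)), X (.inr 2) * X (.inr 0)] j

theorem pd_two (j : Ch r) : pderiv j (2 : MvPolynomial (Ch r) k) = 0 := by
  have : (2 : MvPolynomial (Ch r) k) = C 2 := by rw [map_ofNat]
  rw [this, pderiv_C]

theorem lin_core {A : Type} [CommRing A] (P : Ideal A) [hP : P.IsPrime]
    (c3 c2 x q1 q2 G0 G1 G2 : A) (h3 : c3 * 3 = 1) (h2 : c2 * 2 = 1)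
    (hr : x ^ 2 - 2 * q1 * x + q2 ∉ P) (e0 : G0 * c3 + G1 * (c3 * (2 * q1)) + G2 * q2 ∈ P)
    (e1 : G0 * (c3 * 2) + G1 * (c3 * (2 * x)) ∈ P) (e2 : G1 * c3 + G2 * x ∈ P) :
    G0 ∈ P ∧ G1 ∈ P ∧ G2 ∈ P := by
  have g2 : G2 ∈ P := by
    have h : (x ^ 2 - 2 * q1 * x + q2) * G2 ∈ P := by
      have : (x ^ 2 - 2 * q1 * x + q2) * G2 = (G0 * c3 + G1 * (c3 * (2 * q1)) + G2 * q2) -
          c2 * (G0 * (c3 * 2) + G1 * (c3 * (2 * x))) - (2 * q1 - x) * (G1 * c3 + G2 * x) := by
        linear_combination (G0 * c3 + G1 * c3 * x) * h2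
      rw [this]
      exact P.sub_mem (P.sub_mem e0 (P.mul_mem_left _ e1)) (P.mul_mem_left _ e2)
    exact (hP.mem_or_mem h).resolve_left hr
  have g1 : G1 ∈ P := by
    have : G1 = 3 * (G1 * c3 + G2 * x) - 3 * x * G2 := by
      linear_combination - G1 * h3
    rw [this]
    exact P.sub_mem (P.mul_mem_left _ e2) (P.mul_mem_left _ g2)
  have g0 : G0 ∈ P := by
    have : G0 = 3 * c2 * (G0 * (c3 * 2) + G1 * (c3 * (2 * x))) - x * G1 := by
      linear_combination - G0 * h3 * (c2 * 2) - G0 * h2 - G1 * x * h3 * (c2 * 2) - G1 * x * h2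
    rw [this]
    exact P.sub_mem (P.mul_mem_left _ e1) (P.mul_mem_left _ g1)
  exact ⟨g0, g1, g2⟩

theorem d00 : pderiv (.inr 0) (Fp k r (.inr 0)) = C (1 / 3) := by
  simp [Fp, pderiv_X, pd_two]

theorem d01 : pderiv (.inr 0) (Fp k r (.inr 1)) = C (1 / 3) * (2 * X (.inr 1)) := by
  simp [Fp, pderiv_X, pd_two]

theorem d02 : pderiv (.inr 0) (Fp k r (.inr 2)) = X (.inr 2) := by
  simp [Fp, pderiv_X]

theorem d10 : pderiv (.inr 1) (Fp k r (.inr 0)) = C (1 / 3) * 2 := by
  simp [Fp, pderiv_X, pd_two]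

theorem d11 : pderiv (.inr 1) (Fp k r (.inr 1)) = C (1 / 3) * (2 * X (.inr 0)) := by
  simp only [Fp, Matrix.cons_val_one, Matrix.cons_val_zero, map_add, pderiv_mul, pderiv_C,
    pd_two, pderiv_X_self]
  rw [pderiv_X_of_ne (by simp), pderiv_X_of_ne (by simp)]
  ring

theorem d12 : pderiv (.inr 1) (Fp k r (.inr 2)) = 0 := by
  simp [Fp, pderiv_X]

theorem d20 : pderiv (.inr 2) (Fp k r (.inr 0)) = 0 := by
  simp [Fp, pderiv_X, pd_two]

theorem d21 : pderiv (.inr 2) (Fp k r (.inr 1)) = C (1 / 3) := by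
  simp [Fp, pderiv_X, pd_two]

theorem d22 : pderiv (.inr 2) (Fp k r (.inr 2)) = X (.inr 0) := by
  simp [Fp, pderiv_X]

theorem dlr (p : Fin r × Fin 2) (j : Fin 3) : pderiv (.inl p) (Fp k r (.inr j)) = 0 := by
  fin_cases j <;> simp [Fp, pderiv_X, pd_two]

theorem jac [CharZero k] (P : Ideal (MvPolynomial (Ch r) k)) [hP : P.IsPrime]
    (hr : rho k r ∉ P) (Φ : MvPolynomial (Ch r) k)
    (H : ∀ j, pderiv j (aeval (Fp k r) Φ) ∈ P) (i : Ch r) :
    aeval (Fp k r) (pderiv i Φ) ∈ P := by
  classical
  have h3 : (C (1 / 3 : k) : MvPolynomial (Ch r) k) * 3 = 1 := by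
    have : (3 : MvPolynomial (Ch r) k) = C 3 := by rw [map_ofNat]
    rw [this, ← C_mul, ← C_1]
    congr 1
    norm_num
  have h2 : (C (1 / 2 : k) : MvPolynomial (Ch r) k) * 2 = 1 := by
    have : (2 : MvPolynomial (Ch r) k) = C 2 := by rw [map_ofNat]
    rw [this, ← C_mul, ← C_1]
    congr 1
    norm_num
  have hl : ∀ p, aeval (Fp k r) (pderiv (.inl p) Φ) ∈ P := by
    intro p
    have h := H (.inl p)
    rw [pd_aeval, Fintype.sum_sum_type, Fin.sum_univ_three, dlr, dlr, dlr,
      Finset.sum_eq_single p] at h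
    · simp only [mul_zero, add_zero] at h
      have h1 : pderiv (Sum.inl p) (Fp k r (Sum.inl p)) = 1 := pderiv_X_self _
      rwa [h1, mul_one] at h
    · intro b _ hb
      have : pderiv (Sum.inl p) (Fp k r (Sum.inl b)) = 0 :=
        pderiv_X_of_ne (fun e => hb (Sum.inl_injective e))
      rw [this, mul_zero]
    · intro h
      exact absurd (Finset.mem_univ _) h
  have hs : ∀ a : Fin 3, ∑ q, aeval (Fp k r) (pderiv (.inl q) Φ) *
      pderiv (.inr a) (Fp k r (.inl q)) = 0 := by
    intro a
    refine Finset.sum_eq_zero fun q _ => ?_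
    have : pderiv (Sum.inr a) (Fp k r (Sum.inl q)) = 0 := pderiv_X_of_ne (by simp)
    rw [this, mul_zero]
  have e0 := H (.inr 0)
  have e1 := H (.inr 1)
  have e2 := H (.inr 2)
  rw [pd_aeval, Fintype.sum_sum_type, Fin.sum_univ_three, hs, zero_add] at e0 e1 e2
  rw [d00, d01, d02] at e0
  rw [d10, d11, d12, mul_zero, add_zero] at e1
  rw [d20, d21, d22, mul_zero, zero_add] at e2
  obtain ⟨g0, g1, g2⟩ := lin_core P _ _ _ _ _ _ _ _ h3 h2 hr e0 e1 e2
  rcases i with p | j
  · exact hl p
  · fin_cases j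
    · exact g0
    · exact g1
    · exact g2

theorem rho_ne [CharZero k] : rho k r ≠ 0 := by
  intro h
  have := congrArg (eval (Sum.elim (fun _ => 0) ![0, 0, 1])) h
  simp [rho] at this

theorem inj [CharZero k] : ∀ (n : ℕ) (Φ : MvPolynomial (Ch r) k), Φ.totalDegree ≤ n →
    aeval (Fp k r) Φ = 0 → Φ = 0 := by
  intro n
  induction n with
  | zero =>
    intro Φ h h0
    have h1 : Φ = C (coeff 0 Φ) := totalDegree_eq_zero_iff_eq_C.1 (Nat.le_zero.1 h)
    rw [h1, aeval_C] at h0
    have : coeff 0 Φ = 0 := C_injective _ _ (h0.trans C_0.symm)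
    rw [h1, this, C_0]
  | succ n ih =>
    intro Φ h h0
    have h1 : ∀ i, pderiv i Φ = 0 := by
      intro i
      by_contra hc
      have h2 := td_lt Φ i hc
      refine hc (ih _ (by omega) ?_)
      have h3 := jac (⊥ : Ideal (MvPolynomial (Ch r) k)) (by simpa using rho_ne) Φ
        (fun j => by rw [h0, map_zero]; exact Ideal.zero_mem _) i
      simpa using h3
    have h2 := eq_C Φ h1
    rw [h2, aeval_C] at h0
    have : coeff 0 Φ = 0 := C_injective _ _ (h0.trans C_0.symm)
    rw [h2, this, C_0]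

/-- the coordinates of the covering are integral over those of `X` -/
theorem int_all [CharZero k] (B : Type) [CommRing B] [Algebra k B] (y : Ch r → B) (j : Ch r) :
    IsIntegral (Algebra.adjoin k (Set.range fun j => aeval y (Fp k r j))) (y j) := by
  set R := Algebra.adjoin k (Set.range fun j => aeval y (Fp k r j)) with hR
  have hmem : ∀ j, aeval y (Fp k r j) ∈ R := fun j => Algebra.subset_adjoin ⟨j, rfl⟩
  have hint : ∀ b ∈ R, IsIntegral R b := fun b hb => isIntegral_algebraMap (R := R) (x := ⟨b, hb⟩)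
  have hk : ∀ c : k, algebraMap k B c ∈ R := fun c => R.algebraMap_mem c
  have h3 : algebraMap k B (1 / 3) * 3 = 1 := by
    have : (3 : B) = algebraMap k B 3 := by rw [map_ofNat]
    rw [this, ← map_mul]
    norm_num
  have h2 : algebraMap k B (1 / 2) * 2 = 1 := by
    have : (2 : B) = algebraMap k B 2 := by rw [map_ofNat]
    rw [this, ← map_mul]
    norm_num
  have s0 : aeval y (Fp k r (.inr 0)) =
      algebraMap k B (1 / 3) * (y (.inr 0) + 2 * y (.inr 1)) := by simp [Fp]
  have s1 : aeval y (Fp k r (.inr 1)) =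
      algebraMap k B (1 / 3) * (2 * y (.inr 1) * y (.inr 0) + y (.inr 2)) := by simp [Fp]
  have s2 : aeval y (Fp k r (.inr 2)) = y (.inr 2) * y (.inr 0) := by simp [Fp]
  set a0 := aeval y (Fp k r (.inr 0)) with ha0
  set a1 := aeval y (Fp k r (.inr 1)) with ha1
  set a2 := aeval y (Fp k r (.inr 2)) with ha2
  have hxi : IsIntegral R (y (.inr 0)) := by
    refine ⟨Polynomial.X ^ 3 - Polynomial.C (3 * ⟨a0, hmem _⟩) * Polynomial.X ^ 2 +
      Polynomial.C (3 * ⟨a1, hmem _⟩) * Polynomial.X - Polynomial.C ⟨a2, hmem _⟩, ?_, ?_⟩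
    · monicity!
    · simp only [Polynomial.eval₂_sub, Polynomial.eval₂_add, Polynomial.eval₂_mul,
        Polynomial.eval₂_pow, Polynomial.eval₂_X, Polynomial.eval₂_C]
      change y (.inr 0) ^ 3 - 3 * a0 * y (.inr 0) ^ 2 + 3 * a1 * y (.inr 0) - a2 = 0
      rw [s0, s1, s2]
      linear_combination (- (y (.inr 0) + 2 * y (.inr 1)) * y (.inr 0) ^ 2 +
        (2 * y (.inr 1) * y (.inr 0) + y (.inr 2)) * y (.inr 0)) * h3
  have hq1 : y (.inr 1) = algebraMap k B (1 / 2) * (3 * a0 - y (.inr 0)) := by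
    rw [s0]
    linear_combination (- algebraMap k B (1 / 2) * (y (.inr 0) + 2 * y (.inr 1))) * h3 -
      y (.inr 1) * h2
  have hi1 : IsIntegral R (y (.inr 1)) := by
    rw [hq1]
    refine (hint _ (hk _)).mul (IsIntegral.sub (hint _ ?_) hxi)
    exact R.mul_mem (by have := hk 3; rwa [map_ofNat] at this) (hmem _)
  have hq2 : y (.inr 2) = 3 * a1 - 2 * y (.inr 1) * y (.inr 0) := by
    rw [s1]
    linear_combination (- (2 * y (.inr 1) * y (.inr 0) + y (.inr 2))) * h3
  have hi2 : IsIntegral R (y (.inr 2)) := by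
    rw [hq2]
    refine IsIntegral.sub (hint _ ?_) (IsIntegral.mul (IsIntegral.mul (hint _ ?_) hi1) hxi)
    · exact R.mul_mem (by have := hk 3; rwa [map_ofNat] at this) (hmem _)
    · have := hk 2; rwa [map_ofNat] at this
  rcases j with p | j
  · have := hmem (.inl p)
    have h1 : aeval y (Fp k r (.inl p)) = y (.inl p) := by simp [Fp]
    rw [h1] at this
    exact hint _ this
  · fin_cases j
    · exact hxi
    · exact hi1
    · exact hi2

theorem int_adjoin [CharZero k] (B : Type) [CommRing B] [Algebra k B] (y : Ch r → B) (b : B)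
    (hb : b ∈ Algebra.adjoin k (Set.range y)) :
    IsIntegral (Algebra.adjoin k (Set.range fun j => aeval y (Fp k r j))) b := by
  induction hb using Algebra.adjoin_induction with
  | mem x hx => obtain ⟨j, rfl⟩ := hx; exact int_all B y j
  | algebraMap c =>
    exact isIntegral_algebraMap (R := Algebra.adjoin k (Set.range fun j => aeval y (Fp k r j)))
      (x := ⟨_, (Algebra.adjoin k (Set.range fun j => aeval y (Fp k r j))).algebraMap_mem c⟩)
  | add x z _ _ hx hz => exact hx.add hz
  | mul x z _ _ hx hz => exact hx.mul hz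

theorem exists_idx [CharZero k] (B : Type) [CommRing B] [IsDomain B] [Algebra k B] (y : Ch r → B)
    (htop : Algebra.adjoin k (Set.range y) = ⊤) (j₀ : Ch r)
    (hind : AlgebraicIndependent k (fun j : {j // j ≠ j₀} => y j)) :
    ∃ idx : Fin (2 * r + 2) → Ch r,
      AlgebraicIndependent k (fun i => aeval y (Fp k r (idx i))) := by
  classical
  set S : Set B := Set.range fun j => aeval y (Fp k r j) with hS
  have hint : ∀ b : B, IsIntegral (Algebra.adjoin k S) b := by
    intro b
    exact int_adjoin B y b (by rw [htop]; trivial)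
  have : Algebra.IsIntegral (Algebra.adjoin k S) B := ⟨hint⟩
  have : Algebra.IsAlgebraic (Algebra.adjoin k S) B := inferInstance
  obtain ⟨t, htS, ht⟩ := exists_isTranscendenceBasis_subset (R := k) (A := B) S
  have h1 : Cardinal.mk {j : Ch r // j ≠ j₀} ≤ Algebra.trdeg k B := hind.cardinalMk_le_trdeg
  rw [← ht.cardinalMk_eq_trdeg] at h1
  have h2 : Fintype.card {j : Ch r // j ≠ j₀} = 2 * r + 2 := by
    rw [Fintype.card_subtype_compl, Fintype.card_subtype_eq]
    simp only [Fintype.card_sum, Fintype.card_prod, Fintype.card_fin]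
    omega
  obtain ⟨e⟩ := (Cardinal.le_def _ _).1 h1
  have e2 : Fin (2 * r + 2) ≃ {j : Ch r // j ≠ j₀} := (Fintype.equivFinOfCardEq h2).symm
  have hc : ∀ i : Fin (2 * r + 2), ∃ j, aeval y (Fp k r j) = ((e (e2 i) : t) : B) := fun i =>
    htS (e (e2 i)).2
  choose idx hidx using hc
  refine ⟨idx, ?_⟩
  have h3 := ht.1.comp (fun i => e (e2 i)) (e.injective.comp e2.injective)
  convert h3 using 1
  funext i
  exact hidx i

end poly

section pl
variable {k K : Type} [Field k] [Field K] [Algebra k K] {σ : Type}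

/-- the order of the value of a polynomial -/
theorem ord_pl {t : σ → K} (ht : AlgebraicIndependent k t) {v : Place k K} {h : MvPolynomial σ k}
    (hv : IsPl t v h) {G : MvPolynomial σ k} (hG : ¬ h ∣ G) (n : ℕ) :
    v.ord (aeval t (h ^ n * G)) = n := by
  have inj : Function.Injective (aeval t : MvPolynomial σ k →ₐ[k] K) := ht
  have h0 : h ≠ 0 := by
    rintro rfl
    have := hv.1
    rw [map_zero, v.ord_zero] at this
    exact zero_ne_one this
  have hG0 : G ≠ 0 := by
    rintro rfl
    exact hG (dvd_zero _)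
  have a1 : aeval t h ≠ 0 := fun e => h0 (inj (by rw [e, map_zero]))
  have a2 : aeval t G ≠ 0 := fun e => hG0 (inj (by rw [e, map_zero]))
  rw [map_mul, map_pow, v.ord_mul (pow_ne_zero _ a1) a2, v.ord_pow, hv.1, hv.2 G hG]
  ring

theorem reg_pl {t : σ → K} (ht : AlgebraicIndependent k t) {v : Place k K} {h : MvPolynomial σ k}
    (hh : Irreducible h) (hv : IsPl t v h) (F : MvPolynomial σ k) : v.Reg (aeval t F) := by
  by_cases hF : F = 0
  · rw [hF, map_zero]; exact v.reg_zero
  · obtain ⟨n, G, hG, rfl⟩ := WfDvdMonoid.max_power_factor hF hh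
    right
    rw [ord_pl ht hv hG n]
    exact Int.natCast_nonneg n

theorem reg_pow (v : Place k K) {a : K} (ha : v.Reg a) (n : ℕ) : v.Reg (a ^ n) := by
  induction n with
  | zero => rw [pow_zero]; exact v.reg_one
  | succ n ih => rw [pow_succ]; exact v.reg_mul ih ha

theorem reg_aeval (v : Place k K) {τ : Type} (z : τ → K) (hz : ∀ j, v.Reg (z j))
    (C : MvPolynomial τ k) : v.Reg (aeval z C) := by
  induction C using MvPolynomial.induction_on with
  | C a => rw [aeval_C]; exact v.reg_const a
  | add p q hp hq => rw [map_add]; exact v.reg_add hp hq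
  | mul_X p n hp => rw [map_mul, aeval_X]; exact v.reg_mul hp (hz n)

theorem reg_xOf {r : ℕ} (v : Place k K) (Y : Ch r → K) (hY : ∀ j, v.Reg (Y j)) (t : Co (r + 2)) :
    v.Reg (xOf Y t) := by
  have h0 := v.reg_zero
  have h1 := v.reg_one
  have hn : ∀ n : ℕ, v.Reg (n : K) := by
    intro n
    have := v.reg_const (n : k)
    rwa [map_natCast] at this
  have h2 : v.Reg (2 : K) := by exact_mod_cast hn 2
  have h3 : v.Reg (3 : K) := by exact_mod_cast hn 3
  have hu : ∀ i, v.Reg (U0 Y i) := by
    intro i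
    refine Fin.cases ?_ (fun i => ?_) i
    · exact h1
    · refine Fin.cases ?_ (fun i => ?_) i
      · exact h0
      · exact hY _
  have hv : ∀ i, v.Reg (V0 Y i) := by
    intro i
    refine Fin.cases ?_ (fun i => ?_) i
    · exact h0
    · refine Fin.cases ?_ (fun i => ?_) i
      · exact h1
      · exact hY _
  have hc : ∀ i, v.Reg (mulc ![1, Y (.inr 0)] ![1, Y (.inr 1), Y (.inr 2)] i) := by
    intro i
    fin_cases i
    · simpa [mulc] using h3
    · simp only [mulc]
      simpa using v.reg_add (hY (.inr 0)) (v.reg_mul h2 (hY (.inr 1)))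
    · simp only [mulc]
      simpa using v.reg_add (v.reg_mul (v.reg_mul h2 (hY (.inr 0))) (hY (.inr 1))) (hY (.inr 2))
    · simp only [mulc]
      simpa using v.reg_mul (v.reg_mul h3 (hY (.inr 0))) (hY (.inr 2))
  have hsub : ∀ {a b : K}, v.Reg a → v.Reg b → v.Reg (a - b) := by
    intro a b ha hb
    rw [sub_eq_add_neg]
    exact v.reg_add ha (v.reg_neg hb)
  unfold xOf ptX
  refine v.reg_mul ?_ ?_
  · unfold wdg
    exact hsub (v.reg_mul (hu _) (hv _)) (v.reg_mul (hv _) (hu _))
  · unfold cub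
    refine v.reg_add (v.reg_add (v.reg_add ?_ ?_) ?_) ?_
    · exact v.reg_mul (hc _) (v.reg_mul (v.reg_mul (hu _) (hu _)) (hu _))
    · exact v.reg_mul (hc _) (v.reg_add (v.reg_add (v.reg_mul (v.reg_mul (hu _) (hu _)) (hv _))
        (v.reg_mul (v.reg_mul (hu _) (hv _)) (hu _))) (v.reg_mul (v.reg_mul (hv _) (hu _)) (hu _)))
    · exact v.reg_mul (hc _) (v.reg_add (v.reg_add (v.reg_mul (v.reg_mul (hu _) (hv _)) (hv _))
        (v.reg_mul (v.reg_mul (hv _) (hu _)) (hv _))) (v.reg_mul (v.reg_mul (hv _) (hv _)) (hu _)))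
    · exact v.reg_mul (hc _) (v.reg_mul (v.reg_mul (hv _) (hv _)) (hv _))

theorem xOf_j0 {r : ℕ} (Y : Ch r → K) : xOf Y (j0 r) = 3 := by
  simp [xOf, ptX, j0, wdg, cub, mulc, U0, V0]

theorem xOf_rr [CharZero k] {r : ℕ} (Y : Ch r → K) (j : Ch r) :
    xOf Y (rrX r j) = 3 * aeval Y (Fp k r j) := by
  have h3 : (algebraMap k K 3)⁻¹ * 3 = 1 := by
    have h : (3 : K) = algebraMap k K 3 := by rw [map_ofNat]
    rw [← h]
    refine inv_mul_cancel₀ ?_
    rw [h]
    exact fun e => three_ne_zero ((map_eq_zero_iff _ (algebraMap k K).injective).1 e)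
  rcases j with ⟨i, j⟩ | j
  · fin_cases j
    · simp [xOf, ptX, rrX, wdg, cub, mulc, U0, V0, Fp]
      ring
    · simp [xOf, ptX, rrX, wdg, cub, mulc, U0, V0, Fp]
      ring
  · fin_cases j
    · simp only [xOf, ptX, rrX, wdg, cub, mulc, U0, V0, Fp]
      simp
      linear_combination (- (Y (.inr 0) + 2 * Y (.inr 1))) * h3
    · simp only [xOf, ptX, rrX, wdg, cub, mulc, U0, V0, Fp]
      simp
      linear_combination (- (2 * Y (.inr 1) * Y (.inr 0) + Y (.inr 2))) * h3
    · simp only [xOf, ptX, rrX, wdg, cub, mulc, U0, V0, Fp]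
      simp
      ring

end pl

theorem done : S_ORD → S_CENT → S_UNR := by
  intro hORD hCENT k K _ _ _ _ _ r Y x hctx h hh hrho
  classical
  obtain ⟨v, hv⟩ := hORD k K (Ch r) Y hctx.ind hctx.top h hh
  refine ⟨v, hv, ?_⟩
  have hprime : Prime h := hh.prime
  set s : Ch r → K := fun j => aeval Y (Fp k r j) with hs
  have haev : ∀ Φ : MvPolynomial (Ch r) k, aeval s Φ = aeval Y (aeval (Fp k r) Φ) := by
    intro Φ
    rw [comp_aeval_apply]
  have hYinj : Function.Injective (aeval Y : MvPolynomial (Ch r) k →ₐ[k] K) := hctx.ind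
  have hsind : AlgebraicIndependent k s := by
    rw [algebraicIndependent_iff]
    intro p hp
    rw [haev] at hp
    exact inj _ p le_rfl (hYinj (by rw [hp, map_zero]))
  have hreg : ∀ F, v.Reg (aeval Y F) := reg_pl hctx.ind hh hv
  have hYreg : ∀ j, v.Reg (Y j) := by
    intro j
    have := hreg (X j)
    rwa [aeval_X] at this
  -- a variable which occurs in `h`
  obtain ⟨j₀, hj₀⟩ : ∃ j₀, h.degreeOf j₀ ≠ 0 := by
    by_contra hc
    push Not at hc
    have h1 : h = C (coeff 0 h) := eq_C h fun i =>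
      pderiv_eq_zero_of_notMem_vars (fun hi => (mem_vars_iff_degreeOf_ne_zero.1 hi) (hc i))
    have h2 : coeff 0 h ≠ 0 := fun e => hh.ne_zero (by rw [h1, e, C_0])
    exact hh.not_isUnit (by rw [h1]; exact (isUnit_iff_ne_zero.2 h2).map C)
  -- the coordinate ring of the divisor
  set P : Ideal (MvPolynomial (Ch r) k) := Ideal.span {h} with hP
  have hPp : P.IsPrime := (Ideal.span_singleton_prime hh.ne_zero).2 hprime
  have hmemP : ∀ F, F ∈ P ↔ h ∣ F := fun F => Ideal.mem_span_singleton
  set B := MvPolynomial (Ch r) k ⧸ P with hB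
  set y : Ch r → B := fun j => Ideal.Quotient.mk P (X j) with hy
  have hay : ∀ G : MvPolynomial (Ch r) k, aeval y G = Ideal.Quotient.mk P G := by
    intro G
    have h1 : (aeval y : MvPolynomial (Ch r) k →ₐ[k] B) = Ideal.Quotient.mkₐ k P := by
      refine algHom_ext fun j => ?_
      rw [aeval_X]
      rfl
    rw [h1]
    rfl
  have htop : Algebra.adjoin k (Set.range y) = ⊤ := by
    rw [Algebra.adjoin_range_eq_range_aeval, eq_top_iff]
    intro b _
    obtain ⟨G, rfl⟩ := Ideal.Quotient.mk_surjective b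
    exact ⟨G, hay G⟩
  have hind : AlgebraicIndependent k (fun j : {j // j ≠ j₀} => y j) := by
    rw [algebraicIndependent_iff]
    intro p hp
    by_contra hp0
    have h1 : aeval y (rename Subtype.val p) = 0 := by
      rw [aeval_rename]; exact hp
    rw [hay, Ideal.Quotient.eq_zero_iff_mem, hmemP] at h1
    obtain ⟨c, hc⟩ := h1
    have h2 : rename Subtype.val p ≠ (0 : MvPolynomial (Ch r) k) := by
      intro e
      exact hp0 (rename_injective _ Subtype.val_injective (by rw [e, map_zero]))
    have hc0 : c ≠ 0 := by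
      rintro rfl
      exact h2 (by rw [hc, mul_zero])
    have h3 : (rename Subtype.val p : MvPolynomial (Ch r) k).degreeOf j₀ = 0 := by
      by_contra hne
      have h4 := vars_rename (Subtype.val : {j // j ≠ j₀} → Ch r) p
        (mem_vars_iff_degreeOf_ne_zero.2 hne)
      obtain ⟨j, -, hj⟩ := Finset.mem_image.1 h4
      exact j.2 hj
    rw [hc, degreeOf_mul_eq hh.ne_zero hc0] at h3
    omega
  obtain ⟨idx, hidx⟩ := exists_idx B y htop j₀ hind
  have hnd : ∀ p : MvPolynomial (Fin (2 * r + 2)) k, p ≠ 0 →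
      ¬ h ∣ aeval (fun i => Fp k r (idx i)) p := by
    intro p hp hd
    rw [← hmemP, ← Ideal.Quotient.eq_zero_iff_mem, ← hay, comp_aeval_apply] at hd
    exact hp ((algebraicIndependent_iff.1 hidx) p hd)
  have hyv : ∀ p : MvPolynomial (Fin (2 * r + 2)) k, p ≠ 0 →
      aeval (fun i => s (idx i)) p ≠ 0 ∧ v.ord (aeval (fun i => s (idx i)) p) = 0 := by
    intro p hp
    have h1 : aeval (fun i => s (idx i)) p = aeval Y (aeval (fun i => Fp k r (idx i)) p) := by
      rw [comp_aeval_apply]
    rw [h1]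
    refine ⟨fun e => hnd p hp ?_, hv.2 _ (hnd p hp)⟩
    have : aeval (fun i => Fp k r (idx i)) p = 0 := hYinj (by rw [e, map_zero])
    rw [this]
    exact dvd_zero _
  -- the coordinates of `X`
  obtain ⟨c, hc, hx⟩ := hctx.eq
  have h3 : (3 : K) ≠ 0 := by
    have h : (3 : K) = algebraMap k K 3 := by rw [map_ofNat]
    rw [h]
    exact fun e => three_ne_zero ((map_eq_zero_iff _ (algebraMap k K).injective).1 e)
  have hx0 : x (j0 r) = c * 3 := by rw [hx]; simp only [xOf_j0]
  have hx0' : x (j0 r) ≠ 0 := by rw [hx0]; exact mul_ne_zero hc h3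
  have hsx : ∀ j, s j = x (rrX r j) / x (j0 r) := by
    intro j
    have h4 : x (rrX r j) = c * (3 * s j) := by
      rw [hx]
      show c * xOf Y (rrX r j) = _
      rw [xOf_rr (k := k)]
    rw [hx0, h4]
    field_simp
  have hsr : ∀ Φ : MvPolynomial (Ch r) k, aeval s Φ ∈ ratX k x := by
    intro Φ
    have h1 : aeval s Φ ∈ Algebra.adjoin k (Set.range s) := by
      rw [Algebra.adjoin_range_eq_range_aeval]
      exact ⟨Φ, rfl⟩
    have h2 : Algebra.adjoin k (Set.range s) ≤ (ratX k x).toSubalgebra := by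
      refine Algebra.adjoin_le ?_
      rintro _ ⟨j, rfl⟩
      rw [hsx]
      exact IntermediateField.subset_adjoin _ _ ⟨(rrX r j, j0 r), rfl⟩
    exact h2 h1
  refine ⟨?_, fun i => s (idx i), ?_, hyv⟩
  · -- a rational function of order one
    have hcent := hCENT k K (Ch r) s v (2 * r + 2) hsind (fun i => hreg _)
      (by simp only [Fintype.card_sum, Fintype.card_prod, Fintype.card_fin]; omega)
      (fun i => s (idx i)) (fun i => ⟨X (idx i), 1, by rw [map_one]; exact one_ne_zero,
        by rw [map_one, v.ord_one], by rw [map_one, div_one, aeval_X]⟩) hyv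
    rcases hcent with h1 | ⟨Φ, hΦ, hpos, hΦd⟩
    · exfalso
      set z := aeval Y h with hz
      have hz0 : z ≠ 0 := fun e => hh.ne_zero (hYinj (by rw [← hz, e, map_zero]))
      have hzi : IsIntegral (Algebra.adjoin k (Set.range s)) z :=
        int_adjoin K Y z (by rw [Algebra.adjoin_range_eq_range_aeval]; exact ⟨h, rfl⟩)
      obtain ⟨q, hq0, hq⟩ := hzi.isAlgebraic.exists_nonzero_coeff_and_aeval_eq_zero
        (mem_nonZeroDivisors_of_ne_zero hz0)
      have hR : ∀ a : Algebra.adjoin k (Set.range s), ∃ F : MvPolynomial (Ch r) k,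
          (a : K) = aeval s F := by
        rintro ⟨a, ha⟩
        have ha' := ha
        rw [Algebra.adjoin_range_eq_range_aeval] at ha'
        obtain ⟨F, hF⟩ := ha'
        exact ⟨F, hF.symm⟩
      have hRr : ∀ a : Algebra.adjoin k (Set.range s), v.Reg (a : K) := by
        intro a
        obtain ⟨F, hF⟩ := hR a
        rw [hF, haev]
        exact hreg _
      set w := Polynomial.aeval z (Polynomial.divX q) with hw
      have hwr : v.Reg w := by
        rw [hw, Polynomial.aeval_eq_sum_range]
        refine Finset.sum_induction _ v.Reg (fun _ _ => v.reg_add) v.reg_zero fun i _ => ?_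
        rw [Algebra.smul_def]
        exact v.reg_mul (hRr _) (reg_pow v (hreg h) i)
      have e1 : w * z + ((q.coeff 0 : Algebra.adjoin k (Set.range s)) : K) = 0 := by
        have h4 := congrArg (Polynomial.aeval z) (Polynomial.divX_mul_X_add q)
        rw [map_add, map_mul, Polynomial.aeval_X, Polynomial.aeval_C, hq] at h4
        exact h4
      obtain ⟨F, hF⟩ := hR (q.coeff 0)
      have e2 := h1 F
      rw [← hF] at e2
      have hq0' : ((q.coeff 0 : Algebra.adjoin k (Set.range s)) : K) ≠ 0 := fun e =>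
        hq0 (Subtype.ext e)
      have e3 : ((q.coeff 0 : Algebra.adjoin k (Set.range s)) : K) = - (w * z) := by
        linear_combination e1
      have hw0 : w ≠ 0 := by
        intro e
        rw [e, zero_mul, neg_zero] at e3
        exact hq0' e3
      rw [e3, v.ord_neg, v.ord_mul hw0 hz0, hv.1] at e2
      have := (v.reg_iff hw0).1 hwr
      omega
    · refine ⟨aeval s Φ, hsr Φ, ?_⟩
      have hΨ0 : aeval (Fp k r) Φ ≠ 0 := fun e => hΦ.ne_zero (inj _ Φ le_rfl e)
      obtain ⟨n, G, hG, hn⟩ := WfDvdMonoid.max_power_factor hΨ0 hh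
      have ho : v.ord (aeval s Φ) = n := by rw [haev, hn, ord_pl hctx.ind hv hG n]
      rw [ho] at hpos ⊢
      have hn1 : 1 ≤ n := by omega
      rcases eq_or_lt_of_le hn1 with h1 | h1
      · rw [← h1]; norm_num
      · exfalso
        have hder : ∀ j, pderiv j (aeval (Fp k r) Φ) ∈ P := by
          intro j
          rw [hmemP, hn, pderiv_mul, pderiv_pow]
          refine dvd_add ?_ (dvd_mul_of_dvd_left (dvd_pow_self h (by omega)) _)
          exact dvd_mul_of_dvd_left (dvd_mul_of_dvd_left
            (dvd_mul_of_dvd_right (dvd_pow_self h (by omega)) _) _) _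
        have h2 := jac P (fun e => hrho ((hmemP _).1 e)) Φ hder
        have h4 : ∀ i, pderiv i Φ = 0 := by
          intro i
          by_contra hne
          have h5 : ¬ Φ ∣ pderiv i Φ := by
            rintro ⟨c', hc'⟩
            have hc0 : c' ≠ 0 := by
              rintro rfl
              exact hne (by rw [hc', mul_zero])
            have h6 := td_lt Φ i hne
            rw [hc', totalDegree_mul_of_isDomain hΦ.ne_zero hc0] at h6
            omega
          have h6 := hΦd _ h5
          obtain ⟨G', hG'⟩ := (hmemP _).1 (h2 i)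
          have h7 : G' ≠ 0 := by
            rintro rfl
            rw [mul_zero] at hG'
            exact hne (inj _ _ le_rfl hG')
          have h8 : aeval Y G' ≠ 0 := fun e => h7 (hYinj (by rw [e, map_zero]))
          have h9 : aeval Y h ≠ 0 := fun e => hh.ne_zero (hYinj (by rw [e, map_zero]))
          rw [haev, hG', map_mul, v.ord_mul h9 h8, hv.1] at h6
          have := (v.reg_iff h8).1 (hreg G')
          omega
        have h5 := eq_C Φ h4
        have h6 : coeff 0 Φ ≠ 0 := fun e => hΦ.ne_zero (by rw [h5, e, C_0])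
        exact hΦ.not_isUnit (by rw [h5]; exact (isUnit_iff_ne_zero.2 h6).map C)
  · -- regular functions
    intro i
    refine ⟨1, X (rrX r (idx i)), X (j0 r), isHomogeneous_X _ _, isHomogeneous_X _ _, ?_, ?_, ?_⟩
    · rw [aeval_X]; exact hx0'
    · rw [aeval_X, aeval_X]; exact hsx _
    · intro Cc hCc
      have h1 : aeval x Cc = c * aeval (xOf Y) Cc := by
        rw [hx, aeval_smul_homog hCc, pow_one]
      have h2 : aeval x Cc / aeval x (X (j0 r) : MvPolynomial _ k) =
          algebraMap k K (1 / 3) * aeval (xOf Y) Cc := by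
        rw [h1, aeval_X, hx0, map_div₀, map_one, map_ofNat]
        field_simp
      rw [h2]
      exact v.reg_mul (v.reg_const _) (reg_aeval v _ (reg_xOf v Y hYreg) Cc)

end Pool.Agent.Y776.LT.UNR
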